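import Pool.Agent.PST.StmtsET1

/-! # PST block ET, row CSS: elements of `S ⊗ S` killed by the `s ⊗ 1 - 1 ⊗ s`. -/

open scoped TensorProduct

noncomputable section

namespace Pool.Agent.PST.ET.H29

theorem css : CssStmt := by
  intro R V S _ _ _ _ σ σ' t ht Δ hΔ
  set idt : S ⊗[R] S →ₗ[R] S :=
    TensorProduct.lift ((LinearMap.lsmul R S).flip.compl₂ t) with hidt
  have hpt : ∀ x y : S, idt (x ⊗ₜ[R] y) = t y • x := fun x y => rfl
  have h1 : ∀ Δ : S ⊗[R] S, ∑ v, (idt (((1 : S) ⊗ₜ[R] σ v) * Δ)) ⊗ₜ[R] σ' v = Δ := by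
    intro Δ
    induction Δ using TensorProduct.induction_on with
    | zero => simp
    | tmul x y =>
      have h2 : ∀ v, (idt (((1 : S) ⊗ₜ[R] σ v) * (x ⊗ₜ[R] y))) ⊗ₜ[R] σ' v
          = x ⊗ₜ[R] (t (σ v * y) • σ' v) := by
        intro v
        rw [Algebra.TensorProduct.tmul_mul_tmul, hpt, one_mul, TensorProduct.smul_tmul]
      rw [Finset.sum_congr rfl fun v _ => h2 v, ← TensorProduct.tmul_sum, ht]
    | add a b ha hb =>
      have h2 : ∀ v, (idt (((1 : S) ⊗ₜ[R] σ v) * (a + b))) ⊗ₜ[R] σ' v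
          = (idt (((1 : S) ⊗ₜ[R] σ v) * a)) ⊗ₜ[R] σ' v
            + (idt (((1 : S) ⊗ₜ[R] σ v) * b)) ⊗ₜ[R] σ' v := by
        intro v
        rw [mul_add, map_add, TensorProduct.add_tmul]
      rw [Finset.sum_congr rfl fun v _ => h2 v, Finset.sum_add_distrib, ha, hb]
  have h3 : ∀ (s : S) (Δ : S ⊗[R] S), idt ((s ⊗ₜ[R] (1 : S)) * Δ) = s * idt Δ := by
    intro s Δ
    induction Δ using TensorProduct.induction_on with
    | zero => simp
    | tmul x y =>
      rw [Algebra.TensorProduct.tmul_mul_tmul, hpt, hpt, one_mul, mul_smul_comm]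
    | add a b ha hb => rw [mul_add, map_add, ha, hb, map_add, mul_add]
  have h4 := h1 Δ
  have h5 : ∀ v, (idt (((1 : S) ⊗ₜ[R] σ v) * Δ)) = σ v * idt Δ := by
    intro v
    rw [← hΔ, h3]
  calc Algebra.TensorProduct.lmul' (S := S) R Δ
      = Algebra.TensorProduct.lmul' (S := S) R
          (∑ v, (idt (((1 : S) ⊗ₜ[R] σ v) * Δ)) ⊗ₜ[R] σ' v) := by rw [h4]
    _ = ∑ v, (σ v * idt Δ) * σ' v := by
        rw [map_sum]
        refine Finset.sum_congr rfl fun v _ => ?_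
        rw [Algebra.TensorProduct.lmul'_apply_tmul, h5]
    _ = idt Δ * ∑ v, σ v * σ' v := by
        rw [Finset.mul_sum]
        refine Finset.sum_congr rfl fun v _ => ?_
        ring

end Pool.Agent.PST.ET.H29
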