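import Pool.Agent.PST.StmtsGE
import Pool.Agent.Helper84_PSS.GEN

/-! Squad PST, row GVG: the direction over `K` from the direction over `R`. -/

open scoped BigOperators TensorProduct

noncomputable section

namespace Pool.Agent.PST.H29

open Pool.Agent.PSS Pool.Agent.PST
open Pool.Agent.PFD.D2 (Cdv FibG)
open Pool.Agent.PSS.H84 (gen_g)

theorem gvg : GvgStmt := by
  intro ℓ _ R K F V A A₀ B κ Ω _ _ _ _ _ _ _ _ _ _ _ _ _ _ _ _ _ W cv f α lam x y b c C v h D hF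
  have hℓ : (ℓ : K) ≠ 0 := Nat.cast_ne_zero.2 (Fact.out : ℓ.Prime).ne_zero
  obtain ⟨g, h1, h2, h3, h4⟩ := gen_g C ℓ hℓ W v hF.lin hF.der
  have hsm : ∀ e : A, C.i ((ℓ : R) • e) = (ℓ : K) • C.i e := by
    intro e
    rw [map_smul, ← C.tow, map_natCast]
  refine ⟨g, h1, h2, h3, fun u => ?_, hF.hv, hF.hw, hF.hy⟩
  obtain ⟨e, he⟩ := hF.vh u
  obtain ⟨e1, he1⟩ := hF.der 1 1
  have h5 : v 1 = -((ℓ : R) • e1) := by
    rw [← he1]
    simp
  refine ⟨e + e1 * α u, ?_⟩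
  rw [← h4, ← hsm, ← map_add, h5, smul_add, ← smul_mul_assoc, ← he]
  congr 1
  noncomm_ring

end Pool.Agent.PST.H29
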