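import Pool.Agent.PST.StmtsET2

/-! # PST block ET, row KLF (uses PCM, KRS): an integral combination of idempotents which is a sum of
commutators modulo `π` is a sum of commutators. -/

noncomputable section

namespace Pool.Agent.PST.ET.H29

open Pool.Agent.PFD.D2 (Cdv FibG)

theorem klf (hP : PcmStmt) (hK : KrsStmt) : KlfStmt := by
  intro ℓ hℓ R F D H ι _ _ _ _ _ c _ _ _ _ _ f _ j m hj hx
  obtain ⟨hadd, hpow⟩ := hP ℓ R D
  have hsm : ∀ (r : R) (x : D), f.q (r • x) = c.κ r • f.q x := by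
    intro r x
    rw [Algebra.smul_def, map_mul, f.sc, ← Algebra.smul_def]
  have hlift : ∀ h ∈ cmt F H, ∃ c0 ∈ cmt R D, f.q c0 = h := by
    intro h hh
    refine Submodule.span_induction (p := fun h _ => ∃ c0 ∈ cmt R D, f.q c0 = h) ?_ ?_ ?_ ?_ hh
    · rintro _ ⟨a, b, rfl⟩
      obtain ⟨a', rfl⟩ := f.surj a
      obtain ⟨b', rfl⟩ := f.surj b
      exact ⟨a' * b' - b' * a', Submodule.subset_span ⟨a', b', rfl⟩, by
        rw [map_sub, map_mul, map_mul]⟩
    · exact ⟨0, Submodule.zero_mem _, map_zero _⟩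
    · rintro x y _ _ ⟨x', hx', rfl⟩ ⟨y', hy', rfl⟩
      exact ⟨x' + y', Submodule.add_mem _ hx' hy', map_add _ _ _⟩
    · rintro r x _ ⟨x', hx', rfl⟩
      obtain ⟨r', rfl⟩ := c.surj r
      exact ⟨r' • x', Submodule.smul_mem _ _ hx', hsm _ _⟩
  set x : D := ∑ i, m i • j i with hxdef
  obtain ⟨c0, hc0, hc0q⟩ := hlift _ hx
  obtain ⟨d, hd⟩ := f.ker (x - c0) (by
    rw [map_sub, hc0q, hxdef, map_sum, sub_eq_zero]
    exact Finset.sum_congr rfl fun i _ => map_zsmul _ _ _)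
  -- congruences
  have hcong : ∀ a b : D, a - b ∈ cmt R D → a ^ ℓ - b ^ ℓ ∈ cmt R D := by
    intro a b hab
    have h1 := hadd b (a - b)
    rw [add_sub_cancel] at h1
    have h2 := Submodule.add_mem _ h1 (hpow _ hab)
    have h3 : a ^ ℓ - b ^ ℓ - (a - b) ^ ℓ + (a - b) ^ ℓ = a ^ ℓ - b ^ ℓ := by abel
    rwa [h3] at h2
  have hsum : ∀ (s : Finset ι) (g : ι → D), (∑ i ∈ s, g i) ^ ℓ - ∑ i ∈ s, g i ^ ℓ ∈ cmt R D := by
    classical
    intro s g
    induction s using Finset.induction_on with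
    | empty =>
      rw [Finset.sum_empty, Finset.sum_empty, zero_pow hℓ.out.ne_zero, sub_zero]
      exact Submodule.zero_mem _
    | insert i s hi ih =>
      rw [Finset.sum_insert hi, Finset.sum_insert hi]
      have h1 := Submodule.add_mem _ (hadd (g i) (∑ i ∈ s, g i)) ih
      have h2 : (g i + ∑ i ∈ s, g i) ^ ℓ - g i ^ ℓ - (∑ i ∈ s, g i) ^ ℓ
            + ((∑ i ∈ s, g i) ^ ℓ - ∑ i ∈ s, g i ^ ℓ)
          = (g i + ∑ i ∈ s, g i) ^ ℓ - (g i ^ ℓ + ∑ i ∈ s, g i ^ ℓ) := by abel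
      rwa [h2] at h1
  have hfer : ∀ k : ℤ, ((k : R)) ^ ℓ = (k : R) := by
    intro k
    have h1 : ((k : ZMod ℓ)) ^ ℓ = (k : ZMod ℓ) := ZMod.pow_card _
    have h2 := congrArg (ZMod.castHom (dvd_refl ℓ) R) h1
    rwa [map_pow, map_intCast] at h2
  have hone : ∀ i, (m i • j i) ^ ℓ = m i • j i := by
    intro i
    have h1 : m i • j i = (m i : R) • j i := (Int.cast_smul_eq_zsmul R (m i) (j i)).symm
    have h2 : ∀ n : ℕ, 0 < n → (j i) ^ n = j i := by
      intro n hn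
      obtain ⟨k, rfl⟩ : ∃ k, n = k + 1 := ⟨n - 1, by omega⟩
      induction k with
      | zero => simp
      | succ k ih => rw [pow_succ, ih (by omega), hj]
    rw [h1, smul_pow, hfer, h2 ℓ hℓ.out.pos]
  have hxℓ : x ^ ℓ - x ∈ cmt R D := by
    have h1 := hsum Finset.univ (fun i => m i • j i)
    simp only [hone] at h1
    exact h1
  have hP2 : ∀ n : ℕ, x - c.π ^ (ℓ ^ n) • d ^ (ℓ ^ n) ∈ cmt R D := by
    intro n
    induction n with
    | zero =>
      rw [pow_zero, pow_one, pow_one, ← hd, sub_sub_cancel]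
      exact hc0
    | succ n ih =>
      have h1 := hcong _ _ ih
      rw [smul_pow, ← pow_mul, ← pow_mul, ← pow_succ] at h1
      have h2 := Submodule.sub_mem _ h1 hxℓ
      have h3 : x ^ ℓ - c.π ^ ℓ ^ (n + 1) • d ^ ℓ ^ (n + 1) - (x ^ ℓ - x)
          = x - c.π ^ ℓ ^ (n + 1) • d ^ ℓ ^ (n + 1) := by abel
      rwa [h3] at h2
  refine hK R F D c (cmt R D) x fun n => ?_
  have hn : n ≤ ℓ ^ n := (Nat.lt_pow_self hℓ.out.one_lt).le
  refine ⟨c.π ^ (ℓ ^ n - n) • d ^ (ℓ ^ n), ?_⟩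
  rw [smul_smul, ← pow_add, Nat.add_sub_cancel' hn]
  exact hP2 n

end Pool.Agent.PST.ET.H29
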