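import Pool.Agent.PST.StmtsK2
import Pool.Agent.Helper63_PSS.FXL

/-! # PST row NRK: a lift `rh` with `rh ^ ℓ = s (r ^ ℓ)`. -/

noncomputable section

namespace Pool.Agent.PST.H29

open Pool.Agent.PSS
open Finset

theorem nrk : NrkStmt := by
  intro R K V A B κ Ω X _ _ _ _ _ _ _ _ _ _ _ _ _ _ _ W α lam x y b c C cc p j s ℓ r hℓ hrW hZ E
  set g : V → B := fun v => C.i (α v) with hg
  have gm : ∀ u v, g (u * v) = g u * g v := fun u v => by simp only [hg, map_mul]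
  have g1 : g 1 = 1 := by simp only [hg, map_one]
  have gc : ∀ u v, g u * g v = g v * g u := fun u v => by rw [← gm, mul_comm, gm]
  have gi : ∀ u, g u * g u⁻¹ = 1 := fun u => by rw [← gm, mul_inv_cancel, g1]
  have gi' : ∀ u, g u⁻¹ * g u = 1 := fun u => by rw [← gm, inv_mul_cancel, g1]
  have gp : ∀ u (n : ℕ), g (u ^ n) = g u ^ n := fun u n => by simp only [hg, map_pow]
  have rel := hZ.rel
  have rel1 : ∀ w ∈ W, ∀ a b, cc (g w * a) b = g w * cc a b := fun w hw a b => (rel w hw a b).1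
  have rel2 : ∀ w ∈ W, ∀ a b, cc (a * g w) b = cc a (g w * b) := fun w hw a b => (rel w hw a b).2.1
  have rel3 : ∀ w ∈ W, ∀ a b, cc a (b * g w) = cc a b * g w := fun w hw a b => (rel w hw a b).2.2
  have n1 : ∀ a, cc 1 a = 0 := hZ.nrm.1
  have n2 : ∀ a, cc a 1 = 0 := hZ.nrm.2
  have cw1 : ∀ w ∈ W, ∀ a, cc (g w) a = 0 := by
    intro w hw a
    have := rel1 w hw 1 a
    rwa [mul_one, n1, mul_zero] at this
  have cw2 : ∀ w ∈ W, ∀ a, cc a (g w) = 0 := by
    intro w hw a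
    have := rel3 w hw a 1
    rwa [one_mul, n2, zero_mul] at this
  have Es : ∀ a m, s a * j m = j (C.i a * m) := E.sj
  have Ej : ∀ a m, j m * s a = j (m * C.i a) := E.js
  have Ess : ∀ u v, s (α u) * s (α v) = s (α (u * v)) + j (cc (g u) (g v)) := by
    intro u v
    rw [map_mul]
    exact E.ss (α u) (α v)
  have inadd : ∀ m m', In C.i m → In C.i m' → In C.i (m + m') := by
    rintro m m' ⟨a, rfl⟩ ⟨a', rfl⟩
    exact ⟨a + a', map_add _ _ _⟩
  have inneg : ∀ m, In C.i m → In C.i (-m) := by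
    rintro m ⟨a, rfl⟩
    exact ⟨-a, map_neg _ _⟩
  have inl : ∀ u m, In C.i m → In C.i (g u * m) := by
    rintro u m ⟨a, rfl⟩
    exact ⟨α u * a, map_mul _ _ _⟩
  have inr : ∀ u m, In C.i m → In C.i (m * g u) := by
    rintro u m ⟨a, rfl⟩
    exact ⟨a * α u, map_mul _ _ _⟩
  -- powers of `s r`
  set z : ℕ → B := fun t => ∑ q ∈ range t, cc (g (r ^ q)) (g r) * g (r ^ (q + 1))⁻¹ with hz
  have hpow : ∀ t : ℕ, s (α r) ^ t = s (α (r ^ t)) + j (z t * g (r ^ t)) := by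
    intro t
    induction t with
    | zero =>
      simp only [pow_zero, map_one, hz, Finset.range_zero, Finset.sum_empty, zero_mul, map_zero,
        add_zero, E.s1]
    | succ t ih =>
      rw [pow_succ, ih, add_mul, Ess, Ej, add_assoc, ← map_add, ← pow_succ]
      congr 2
      have h1 : z (t + 1) = z t + cc (g (r ^ t)) (g r) * g (r ^ (t + 1))⁻¹ := by
        simp only [hz]
        rw [Finset.sum_range_succ]
      rw [h1, add_mul, mul_assoc (cc _ _), gi', mul_one, add_comm, mul_assoc]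
      congr 2
      show g (r ^ t) * g r = _
      rw [← gm, pow_succ]
  have zW : ∀ (t : ℕ), ∀ w ∈ W, g w * z t = z t * g w := by
    intro t w hw
    simp only [hz]
    rw [Finset.mul_sum, Finset.sum_mul]
    refine Finset.sum_congr rfl fun q _ => ?_
    rw [← mul_assoc, ← rel1 w hw, gc w, rel2 w hw, gc w r, rel3 w hw, mul_assoc, gc w, mul_assoc]
  have zr : In C.i (g r * z ℓ * g r⁻¹ - z ℓ) := by
    have h1 : s (α r) * s (α r) ^ ℓ = s (α r) ^ ℓ * s (α r) := (pow_mul_comm' (s (α r)) ℓ).symm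
    have h2 : s (α r) * s (α (r ^ ℓ)) = s (α (r ^ ℓ)) * s (α r) := by
      rw [Ess, Ess, cw1 _ hrW, cw2 _ hrW, mul_comm]
    rw [hpow, mul_add, add_mul, h2, Es, Ej] at h1
    have h3 := add_left_cancel h1
    have h4 : j (g r * (z ℓ * g (r ^ ℓ)) - z ℓ * g (r ^ ℓ) * g r) = 0 := by
      rw [map_sub, sub_eq_zero]
      exact h3
    have h5 := inr (r⁻¹ * (r ^ ℓ)⁻¹) _ ((E.j0 _).1 h4)
    have h6 : (g r * (z ℓ * g (r ^ ℓ)) - z ℓ * g (r ^ ℓ) * g r) * g (r⁻¹ * (r ^ ℓ)⁻¹)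
        = g r * z ℓ * g r⁻¹ - z ℓ := by
      have h7 : g (r ^ ℓ) * g (r⁻¹ * (r ^ ℓ)⁻¹) = g r⁻¹ := by
        rw [← gm]; congr 1
        rw [mul_left_comm, mul_inv_cancel, mul_one]
      have h8 : g (r ^ ℓ) * (g r * g (r⁻¹ * (r ^ ℓ)⁻¹)) = 1 := by
        rw [← gm, ← gm, ← g1]; congr 1
        rw [← mul_assoc r, mul_inv_cancel, one_mul, mul_inv_cancel]
      rw [sub_mul, mul_assoc (g r), mul_assoc (z ℓ), h7, mul_assoc (z ℓ * g (r ^ ℓ)),
        mul_assoc (z ℓ), h8, mul_one, ← mul_assoc]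
    rwa [h6] at h5
  -- the group of `v` fixing `z` modulo `A`
  let S : Subgroup V :=
    { carrier := {v | In C.i (g v * z ℓ * g v⁻¹ - z ℓ)}
      one_mem' := by
        show In C.i (g 1 * z ℓ * g 1⁻¹ - z ℓ)
        rw [inv_one, g1, one_mul, mul_one, sub_self]
        exact ⟨0, map_zero _⟩
      mul_mem' := by
        intro u v hu hv
        have hu' : In C.i (g u * z ℓ * g u⁻¹ - z ℓ) := hu
        have hv' : In C.i (g v * z ℓ * g v⁻¹ - z ℓ) := hv
        show In C.i (g (u * v) * z ℓ * g (u * v)⁻¹ - z ℓ)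
        have h1 : g (u * v) * z ℓ * g (u * v)⁻¹ - z ℓ
            = g u * (g v * z ℓ * g v⁻¹ - z ℓ) * g u⁻¹ + (g u * z ℓ * g u⁻¹ - z ℓ) := by
          rw [mul_inv_rev, gm, gm, mul_sub, sub_mul, sub_add_sub_cancel]
          simp only [mul_assoc]
        rw [h1]
        exact inadd _ _ (inr _ _ (inl _ _ hv')) hu'
      inv_mem' := by
        intro v hv
        have hv' : In C.i (g v * z ℓ * g v⁻¹ - z ℓ) := hv
        show In C.i (g v⁻¹ * z ℓ * g v⁻¹⁻¹ - z ℓ)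
        have h1 : g v⁻¹ * z ℓ * g v⁻¹⁻¹ - z ℓ
            = - (g v⁻¹ * (g v * z ℓ * g v⁻¹ - z ℓ) * g v) := by
          have h2 : g v⁻¹ * (g v * z ℓ * g v⁻¹) * g v = z ℓ := by
            rw [mul_assoc (g v), ← mul_assoc, gi', one_mul, mul_assoc, gi', mul_one]
          rw [inv_inv, mul_sub, sub_mul, h2, neg_sub]
        rw [h1]
        exact inneg _ (inr _ _ (inl _ _ hv')) }
  have hSr : r ∈ S := zr
  have hSW : ∀ w ∈ W, w ∈ S := by
    intro w hw
    show In C.i (g w * z ℓ * g w⁻¹ - z ℓ)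
    rw [zW ℓ w hw, mul_assoc, gi, mul_one, sub_self]
    exact ⟨0, map_zero _⟩
  obtain ⟨t, ht1, ht2⟩ := Pool.Agent.PSS.H63.fxl R K V A B κ Ω α lam x y b c C
    (S.map ((MonoidHom.id V).prod (MonoidHom.id V))) (z ℓ) (by
      rintro _ ⟨v, hv, rfl⟩
      have hv' : In C.i (g v * z ℓ * g v⁻¹ - z ℓ) := hv
      show In C.i (g v * (z ℓ * g v⁻¹) - z ℓ)
      rwa [← mul_assoc])
  have tS : ∀ v ∈ S, g v * t = t * g v := by
    intro v hv
    have h0 : g v * (t * g v⁻¹) = t := ht1 (v, v) ⟨v, hv, rfl⟩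
    have h1 : g v * t * g v⁻¹ = t := by rw [mul_assoc, h0]
    calc g v * t = g v * t * (g v⁻¹ * g v) := by rw [gi', mul_one]
      _ = (g v * t * g v⁻¹) * g v := by rw [mul_assoc (g v * t)]
      _ = t * g v := by rw [h1]
  have hℓK : (ℓ : K) ≠ 0 := Nat.cast_ne_zero.2 hℓ.ne'
  set k₀ : B := -((ℓ : K)⁻¹ • t) with hk₀
  have hk₀ℓ : ℓ • k₀ = -t := by
    rw [hk₀, smul_neg, ← Nat.cast_smul_eq_nsmul K, smul_smul, mul_inv_cancel₀ hℓK, one_smul]
  have kS : ∀ v ∈ S, g v * k₀ = k₀ * g v := by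
    intro v hv
    rw [hk₀, mul_neg, neg_mul, mul_smul_comm, smul_mul_assoc, tS v hv]
  have spj : ∀ (n : ℕ) m, s (α r) ^ n * j m = j (g r ^ n * m) := by
    intro n
    induction n with
    | zero => intro m; simp
    | succ n ih => intro m; rw [pow_succ, mul_assoc, Es, ih, pow_succ, mul_assoc]
  have hk₀p : ∀ n : ℕ, g r ^ n * k₀ = k₀ * g r ^ n := fun n =>
    ((show Commute (g r) k₀ from kS r hSr).pow_left n).eq
  have hfin : ∀ n : ℕ, (s (α r) + j (k₀ * g r)) ^ n = s (α r) ^ n + j (n • (k₀ * g r ^ n)) := by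
    intro n
    induction n with
    | zero => simp
    | succ n ih =>
      rw [pow_succ, ih, mul_add, add_mul, add_mul, spj, Ej, E.jj, add_zero, ← pow_succ, add_assoc,
        ← map_add]
      congr 2
      show n • (k₀ * g r ^ n) * g r + g r ^ n * (k₀ * g r) = _
      rw [← mul_assoc, hk₀p, smul_mul_assoc, mul_assoc, ← pow_succ, add_smul, one_smul]
  refine ⟨k₀ * g r, ?_, ?_, ?_⟩
  · intro w hw
    show g w * (k₀ * g r) = k₀ * g r * g w
    rw [← mul_assoc, kS w (hSW w hw), mul_assoc, gc w r, mul_assoc]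
  · show g r * (k₀ * g r) = k₀ * g r * g r
    rw [← mul_assoc, kS r hSr]
  · rw [hfin, hpow, add_assoc, ← map_add]
    have h1 : z ℓ * g (r ^ ℓ) + ℓ • (k₀ * g r ^ ℓ) = - ((t - z ℓ) * g (r ^ ℓ)) := by
      rw [← smul_mul_assoc, hk₀ℓ, gp, sub_mul, neg_mul]
      abel
    have h2 : j (- ((t - z ℓ) * g (r ^ ℓ))) = 0 := by
      rw [E.j0]
      exact inneg _ (inr _ _ ht2)
    rw [h1, h2, add_zero]

end Pool.Agent.PST.H29
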