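import Pool.Agent.PST.StmtsGE

/-! Squad PST, row XHO: 1-cocycles of the elementary abelian group `V / W` with values in the
functions on a `V`-set are cohomologous to invariant ones. -/

open scoped BigOperators TensorProduct

noncomputable section

namespace Pool.Agent.PST.H29

open Pool.Agent.PSS Pool.Agent.PST

theorem exists_proj1 (ℓ : ℕ) [Fact ℓ.Prime] {X : Type} [AddCommGroup X] [Module (ZMod ℓ) X]
    (S : AddSubgroup X) : ∃ r : X →+ X, (∀ x, r x ∈ S) ∧ ∀ x ∈ S, r x = x := by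
  let p : Submodule (ZMod ℓ) X := AddSubgroup.toZModSubmodule ℓ S
  obtain ⟨π, hπ⟩ := LinearMap.exists_leftInverse_of_injective p.subtype p.ker_subtype
  refine ⟨(p.subtype.comp π).toAddMonoidHom, fun x => (π x).2, fun x hx => ?_⟩
  exact congrArg (fun g => ((g ⟨x, hx⟩ : p) : X)) hπ

/-- subgroups of elementary abelian groups are retracts -/
theorem exists_proj (ℓ : ℕ) [Fact ℓ.Prime] {X : Type} [AddCommGroup X]
    (h0 : ∀ x : X, ℓ • x = 0) (S : AddSubgroup X) :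
    ∃ r : X →+ X, (∀ x, r x ∈ S) ∧ ∀ x ∈ S, r x = x :=
  @exists_proj1 ℓ _ X _ (AddCommGroup.zmodModule h0) S

/-- a projection of `V / W` onto `S / W` -/
theorem exists_retract (ℓ : ℕ) [Fact ℓ.Prime] {V : Type} [CommGroup V] (W S : Subgroup V)
    (hV : ∀ v : V, v ^ ℓ ∈ W) :
    ∃ r : V → V, (∀ v, r v ∈ S) ∧ (∀ u v, (r u * r v)⁻¹ * r (u * v) ∈ W) ∧
      ∀ s ∈ S, s⁻¹ * r s ∈ W := by
  classical
  have h0 : ∀ x : Additive (V ⧸ W), ℓ • x = 0 := by
    intro x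
    obtain ⟨v, hv⟩ := QuotientGroup.mk_surjective (Additive.toMul x)
    have h1 : (Additive.toMul x) ^ ℓ = 1 := by
      rw [← hv, ← QuotientGroup.mk_pow, QuotientGroup.eq_one_iff]
      exact hV v
    exact h1
  obtain ⟨π, hπ1, hπ2⟩ := exists_proj ℓ h0 (S.map (QuotientGroup.mk' W)).toAddSubgroup
  let q : V → Additive (V ⧸ W) := fun v => Additive.ofMul (v : V ⧸ W)
  have hq : ∀ u v, q (u * v) = q u + q v := fun u v => rfl
  have hex : ∀ v, ∃ s ∈ S, q s = π (q v) := by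
    intro v
    obtain ⟨s, hs, hs'⟩ := hπ1 (q v)
    exact ⟨s, hs, hs'⟩
  choose r hr hr' using hex
  have hmem : ∀ a b : V, q a = q b → a⁻¹ * b ∈ W := fun a b h => QuotientGroup.eq.1 h
  refine ⟨r, hr, fun u v => hmem _ _ ?_, fun s hs => hmem _ _ ?_⟩
  · rw [hq, hr', hr', hr', hq, map_add]
  · rw [hr', hπ2 (q s) ⟨s, hs, rfl⟩]

theorem xho (hx : XhaStmt) : XhoStmt := by
  classical
  intro ℓ _ V Ω D _ _ _ W f hV hW hf
  have hf1 : ∀ ω, f 1 ω = 0 := by
    intro ω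
    have h := hf 1 1 ω
    rw [mul_one, inv_one, one_smul] at h
    exact left_eq_add.1 h
  have hfw : ∀ w ∈ W, ∀ ω, f w ω = 0 := by
    intro w hw ω
    have h := (hW w hw 1 ω).1
    rw [one_mul, hf1] at h
    exact h
  -- the group of a point
  let S : Ω → Subgroup V := fun ω =>
    { carrier := {s | ∃ w ∈ W, s • ω = w • ω}
      one_mem' := ⟨1, W.one_mem, rfl⟩
      mul_mem' := by
        rintro s t ⟨w, hw, h1⟩ ⟨w', hw', h2⟩
        refine ⟨w * w', W.mul_mem hw hw', ?_⟩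
        rw [mul_smul, h2, smul_smul, mul_comm, mul_smul, h1, smul_smul, mul_comm]
      inv_mem' := by
        rintro s ⟨w, hw, h1⟩
        refine ⟨w⁻¹, W.inv_mem hw, ?_⟩
        rw [inv_smul_eq_iff, smul_smul, mul_comm, mul_smul, h1, inv_smul_smul] }
  have hS : ∀ ω s, s ∈ S ω ↔ ∃ w ∈ W, s • ω = w • ω := fun _ _ => Iff.rfl
  have hWS : ∀ ω, W ≤ S ω := fun ω w hw => ⟨w, hw, rfl⟩
  have hadd : ∀ ω, ∀ s ∈ S ω, ∀ t, f (s * t) ω = f s ω + f t ω := by
    intro ω s hs t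
    obtain ⟨w, hw, h1⟩ := (S ω).inv_mem hs
    rw [hf, h1, (hW w hw t ω).2]
  have hpow : ∀ ω, ∀ s ∈ S ω, ∀ k : ℕ, f (s ^ k) ω = k • f s ω := by
    intro ω s hs k
    induction k with
    | zero => rw [pow_zero, zero_smul, hf1]
    | succ k ih => rw [pow_succ, hadd ω _ ((S ω).pow_mem hs k), ih, succ_nsmul]
  have htor : ∀ ω, ∀ s ∈ S ω, ℓ • f s ω = 0 := by
    intro ω s hs
    rw [← hpow ω s hs, hfw _ (hV s)]
  choose r hr1 hr2 hr3 using fun ω => exists_retract ℓ W (S ω) hV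
  -- representatives of the orbits
  let rep : Ω → Ω := fun ω => (Quotient.mk (MulAction.orbitRel V Ω) ω).out
  have hrep : ∀ ω, ∃ t : V, t • rep ω = ω := by
    intro ω
    have h1 : (MulAction.orbitRel V Ω).r (rep ω) ω := Quotient.exact (Quotient.out_eq _)
    obtain ⟨t, ht⟩ := (MulAction.orbitRel V Ω).symm h1
    exact ⟨t, ht⟩
  have hrepv : ∀ (v : V) ω, rep (v • ω) = rep ω := by
    intro v ω
    have h1 : Quotient.mk (MulAction.orbitRel V Ω) (v • ω) =
        Quotient.mk (MulAction.orbitRel V Ω) ω := Quotient.sound ⟨v, rfl⟩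
    show (Quotient.mk (MulAction.orbitRel V Ω) (v • ω)).out = _
    rw [h1]
  let d : V → Ω → D := fun u ω => f (r (rep ω) u) (rep ω)
  have hd : ∀ u ω, d u ω = f (r (rep ω) u) (rep ω) := fun _ _ => rfl
  have hd1 : ∀ (u v : V) (ω : Ω), d u (v • ω) = d u ω := by
    intro u v ω
    rw [hd, hd, hrepv]
  have hd2 : ∀ u v ω, d (u * v) ω = d u ω + d v ω := by
    intro u v ω
    rw [hd, hd, hd, ← hadd (rep ω) _ (hr1 _ u)]
    have h1 := (hW _ (hr2 (rep ω) u v) (r (rep ω) u * r (rep ω) v) (rep ω)).1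
    rw [mul_inv_cancel_left] at h1
    exact h1
  have hd3 : ∀ ω, ∀ s ∈ S (rep ω), d s ω = f s (rep ω) := by
    intro ω s hs
    have h1 := (hW _ (hr3 (rep ω) s hs) s (rep ω)).1
    rw [mul_inv_cancel_left] at h1
    rw [hd]
    exact h1
  have hd4 : ∀ w ∈ W, ∀ ω, d w ω = 0 := by
    intro w hw ω
    rw [hd3 ω w (hWS _ hw), hfw w hw]
  have hd5 : ∀ u ω, ℓ • d u ω = 0 := by
    intro u ω
    rw [hd]
    exact htor _ _ (hr1 _ u)
  obtain ⟨x, hx1, hx2⟩ := hx V Ω D W (fun u ω => f u ω - d u ω) (by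
    intro w hw u ω
    refine ⟨?_, ?_⟩
    · show f (u * w) ω - d (u * w) ω = f u ω - d u ω
      rw [(hW w hw u ω).1, hd2, hd4 w hw, add_zero]
    · show f u (w • ω) - d u (w • ω) = f u ω - d u ω
      rw [(hW w hw u ω).2, hd1]) (by
    intro u v ω
    show f (u * v) ω - d (u * v) ω = f u ω - d u ω + (f v (u⁻¹ • ω) - d v (u⁻¹ • ω))
    rw [hf, hd2, hd1]
    abel) (by
    intro s ω hs
    show f s ω - d s ω = 0
    obtain ⟨t, ht⟩ := hrep ω
    have hsx : s • rep ω = rep ω := by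
      have h1 : rep ω = t⁻¹ • ω := by rw [← ht, inv_smul_smul, ht]
      rw [h1, smul_smul, mul_comm, mul_smul, hs]
    have h1 := hf t s ω
    have h2 := hf s t ω
    rw [mul_comm s t, h1] at h2
    have h3 : t⁻¹ • ω = rep ω := by
      conv_lhs => rw [← ht]
      rw [inv_smul_smul]
    have h4 : s⁻¹ • ω = ω := by rw [inv_smul_eq_iff, hs]
    rw [h3, h4] at h2
    have h5 : f s ω = f s (rep ω) := by
      have h6 : f t ω + f s (rep ω) = f t ω + f s ω := by rw [h2, add_comm]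
      exact (add_left_cancel h6).symm
    have hsS : s ∈ S (rep ω) := ⟨1, W.one_mem, by rw [hsx, one_smul]⟩
    rw [h5, hd3 ω s hsS, sub_self])
  refine ⟨x, d, hx1, hd1, hd2, hd4, hd5, ?_⟩
  intro u ω
  have h1 : f u ω - d u ω = x (u⁻¹ • ω) - x ω := hx2 u ω
  rw [← h1, sub_add_cancel]

end Pool.Agent.PST.H29
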