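import Pool.Agent.PST.StmtsK2

/-! # PST row XPR (uses XCM): norms and traces. -/

noncomputable section

namespace Pool.Agent.PST.H29

open Pool.Agent.PSS
open Finset

/-- the commutator of `a` with a power -/
theorem comm_pow {X : Type} [Ring X] (a b : X) (n : ℕ) :
    a * b ^ n - b ^ n * a = ∑ t ∈ range n, b ^ t * (a * b - b * a) * b ^ (n - 1 - t) := by
  induction n with
  | zero => simp
  | succ n ih =>
    have h1 : ∑ t ∈ range n, b ^ t * (a * b - b * a) * b ^ (n + 1 - 1 - t)
        = (∑ t ∈ range n, b ^ t * (a * b - b * a) * b ^ (n - 1 - t)) * b := by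
      rw [Finset.sum_mul]
      refine Finset.sum_congr rfl fun t ht => ?_
      have h2 : n + 1 - 1 - t = (n - 1 - t) + 1 := by
        have := Finset.mem_range.1 ht
        omega
      rw [h2, pow_succ, ← mul_assoc]
    rw [Finset.sum_range_succ, h1, ← ih]
    have h3 : n + 1 - 1 - n = 0 := by omega
    rw [h3, pow_zero, mul_one, pow_succ]
    noncomm_ring

theorem xpr (hx : XcmStmt) : XprStmt := by
  intro A B X _ _ _ i c p j s ℓ r r' w k hℓ E hrr hrr' hw hpw hcw hcw'
  have rj : ∀ m, (s r + j k) * j m = j (i r * m) := by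
    intro m
    rw [add_mul, E.sj, E.jj, add_zero]
  have jr : ∀ m, j m * (s r + j k) = j (m * i r) := by
    intro m
    rw [mul_add, E.js, E.jj, add_zero]
  have rtj : ∀ (t : ℕ) m, (s r + j k) ^ t * j m = j (i r ^ t * m) := by
    intro t
    induction t with
    | zero => intro m; simp
    | succ t ih => intro m; rw [pow_succ, mul_assoc, rj, ih, pow_succ, mul_assoc]
  have jrt : ∀ (t : ℕ) m, j m * (s r + j k) ^ t = j (m * i r ^ t) := by
    intro t
    induction t with
    | zero => intro m; simp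
    | succ t ih => intro m; rw [pow_succ', ← mul_assoc, jr, ih, pow_succ', mul_assoc]
  have asw : ∀ a, s a * s w = s (a * w) := by
    intro a
    rw [E.ss, (hcw _).2, map_zero, add_zero]
  have wsa : ∀ a, s w * s a = s (w * a) := by
    intro a
    rw [E.ss, (hcw _).1, map_zero, add_zero]
  have asw' : ∀ a, s a * s (r' ^ ℓ) = s (a * r' ^ ℓ) := by
    intro a
    rw [E.ss, (hcw' _).2, map_zero, add_zero]
  have hc : Commute r r' := by rw [Commute, SemiconjBy, hrr, hrr']
  have hww' : w * r' ^ ℓ = 1 := by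
    rw [← hw, ← hc.mul_pow, hrr, one_pow]
  constructor
  · intro a har
    have haw : a * w = w * a := by
      rw [← hw]
      exact (Commute.pow_right (show Commute a r from har) ℓ).eq
    have h1 := comm_pow (s a) (s r + j k) ℓ
    rw [hpw, asw, wsa, haw, sub_self] at h1
    rw [← E.j0, map_sum, h1]
    refine Finset.sum_congr rfl fun t _ => ?_
    rw [((hx A B X i c p j s r k E).1 a har), rtj, jrt]
  · intro m hm
    have hu1 : s w * s (r' ^ ℓ) = 1 := by rw [asw', hww', E.s1]
    have hw'w : r' ^ ℓ * w = 1 := by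
      rw [← hw, ← hc.symm.mul_pow, hrr', one_pow]
    have hu2 : s (r' ^ ℓ) * s w = 1 := by rw [asw, hw'w, E.s1]
    have hunit : IsUnit ((s r + j k) ^ ℓ) := by
      rw [hpw]
      exact ⟨⟨s w, s (r' ^ ℓ), hu1, hu2⟩, rfl⟩
    obtain ⟨u, hu⟩ := (isUnit_pow_iff (Nat.pos_iff_ne_zero.1 hℓ)).1 hunit
    have hui : (↑(u⁻¹) : X) ^ ℓ = s (r' ^ ℓ) := by
      have h1 : (↑(u⁻¹) : X) ^ ℓ * (u : X) ^ ℓ = 1 := by
        rw [← Units.val_pow_eq_pow_val, ← Units.val_pow_eq_pow_val, ← Units.val_mul, inv_pow,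
          inv_mul_cancel, Units.val_one]
      rw [hu, hpw] at h1
      calc (↑(u⁻¹) : X) ^ ℓ = (↑(u⁻¹) : X) ^ ℓ * (s w * s (r' ^ ℓ)) := by rw [hu1, mul_one]
        _ = s (r' ^ ℓ) := by rw [← mul_assoc, h1, one_mul]
    have hpr : p (s r + j k) = r := by rw [map_add, E.ps, E.pj, add_zero]
    have hpi : p (↑(u⁻¹) : X) = r' := by
      have h1 : r * p (↑(u⁻¹) : X) = 1 := by
        rw [← hpr, ← map_mul, ← hu, Units.mul_inv, map_one]
      calc p (↑(u⁻¹) : X) = (r' * r) * p (↑(u⁻¹) : X) := by rw [hrr', one_mul]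
        _ = r' := by rw [mul_assoc, h1, mul_one]
    set ah : X := ∑ t ∈ range ℓ, (s r + j k) ^ t * s m * (↑(u⁻¹) : X) ^ t with hah
    have hcyc : (s r + j k) * ah * (↑(u⁻¹) : X) = ah := by
      have h1 : (s r + j k) * ah * (↑(u⁻¹) : X)
          = ∑ t ∈ range ℓ, (s r + j k) ^ (t + 1) * s m * (↑(u⁻¹) : X) ^ (t + 1) := by
        rw [hah, Finset.mul_sum, Finset.sum_mul]
        refine Finset.sum_congr rfl fun t _ => ?_
        rw [pow_succ' (s r + j k), pow_succ (↑(u⁻¹) : X)]
        simp only [mul_assoc]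
      have h2 := Finset.sum_range_succ (fun t => (s r + j k) ^ t * s m * (↑(u⁻¹) : X) ^ t) ℓ
      have h3 := Finset.sum_range_succ' (fun t => (s r + j k) ^ t * s m * (↑(u⁻¹) : X) ^ t) ℓ
      rw [h2] at h3
      have h4 : (s r + j k) ^ ℓ * s m * (↑(u⁻¹) : X) ^ ℓ = s m := by
        rw [hpw, hui, wsa, asw', ← hm, mul_assoc, hww', mul_one]
      rw [h4, pow_zero, pow_zero, one_mul, mul_one] at h3
      rw [h1]
      exact (add_right_cancel h3).symm
    have hcomm : (s r + j k) * ah = ah * (s r + j k) := by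
      calc (s r + j k) * ah = (s r + j k) * ah * (↑(u⁻¹) * (u : X)) := by
            rw [Units.inv_mul, mul_one]
        _ = ((s r + j k) * ah * ↑(u⁻¹)) * (u : X) := by rw [mul_assoc ((s r + j k) * ah)]
        _ = ah * (s r + j k) := by rw [hcyc, hu]
    have hpah : p ah = ∑ t ∈ range ℓ, r ^ t * m * r' ^ t := by
      rw [hah, map_sum]
      refine Finset.sum_congr rfl fun t _ => ?_
      rw [map_mul, map_mul, map_pow, map_pow, hpr, hpi, E.ps]
    obtain ⟨h, hh⟩ := E.ker (ah - s (∑ t ∈ range ℓ, r ^ t * m * r' ^ t)) (by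
      rw [map_sub, hpah, E.ps, sub_self])
    refine ⟨h, ?_⟩
    have hah2 : ah = s (∑ t ∈ range ℓ, r ^ t * m * r' ^ t) + j h := by
      rw [← hh]; abel
    rw [hah2] at hcomm
    exact ((hx A B X i c p j s r k E).2.2 _ _ hcomm).2

end Pool.Agent.PST.H29
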